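import Pool.Agent.Helper21.T5b.SZStmts
import Pool.Agent.Helper2.T5b.ZEnd

/-!
# T5b, CaseSplitInj, line E: the number of the sums and the exponents
-/

set_option autoImplicit false

namespace Pool.Agent.Helper53.T5b

open Finset
open Pool.Agent.Helper37.T5b
open Pool.Agent.Helper84.T5b Pool.Agent.Helper1.T5b
open Pool.Agent.Helper21.T5b hiding hz

/-- **line E** -/
theorem endI : EndI := by
  refine ⟨5 * 256 + 1, 2, fun m hm C => ?_⟩
  have hm0 : 0 < m := by omega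
  have hmr : (0 : ℝ) < m := by exact_mod_cast hm0
  have hmm : 4 ≤ m ^ 2 := by nlinarith
  obtain ⟨c0, l1, hc0, h1⟩ := Pool.Agent.Helper57.T5b.exists_le_SS_bL hm (m ^ 2)
  obtain ⟨l2, h2⟩ := Pool.Agent.Helper30.T5b.exists_late (k := m ^ 2) hm0 0 0
  obtain ⟨l3, h3⟩ := Pool.Agent.Helper57.T5b.exists_SS_bL_le hm
  obtain ⟨B, hB⟩ : ∃ B : ℝ, B = 200 * 2 ^ 8 * C + 202 := ⟨_, rfl⟩
  have hB0 : 0 ≤ B := by
    rw [hB]
    positivity
  refine ⟨B ^ 256 * C, c0, l1 + l2 + l3 + 1, mul_nonneg (pow_nonneg hB0 _) (Nat.cast_nonneg _),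
    hc0, fun s l' l hK hZ => ?_⟩
  have hlt := hZ.lt
  have hks := hZ.P.ks
  have hsl := hZ.sl
  have hbl := hZ.P.b1
  obtain ⟨-, a1, a2, -, a3⟩ := h2 l (by omega)
  have hh1 := Pool.Agent.Helper21.T5b.one_le_hz m s l' l
  have hh2 := Pool.Agent.Helper21.T5b.hz_le_two m s l' l
  refine ⟨h1 l (by omega), by omega, ?_⟩
  generalize hh : Pool.Agent.Helper21.T5b.hz m s l' l = h at hh1 hh2
  have hW : (l : ℝ) ≤ 2 ^ 8 * (l : ℝ) ^ ((5 : ℝ) / m) * (SS m (s - h) : ℝ) := by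
    have h4 := Pool.Agent.Helper2.T5b.le_wW (i := h + 1) hm0 a1 a2 a3 (by
      unfold rL
      omega) (by omega)
    unfold Pool.Agent.Helper22.NEARb.wW at h4
    rwa [hsl, show s + 1 - (h + 1) = s - h by omega] at h4
  have hWb : (SS m (bL m (m ^ 2) l) : ℝ) ≤ (SS m (s - h) : ℝ) := by
    have := SS_mono m (show bL m (m ^ 2) l ≤ s - h by omega)
    exact_mod_cast this
  have hWpos : (0 : ℝ) < (SS m (s - h) : ℝ) := by
    have : 0 < SS m (s - h) := SS_pos _ _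
    exact_mod_cast this
  have hd : dZ m s l' l = (SS m (s - h) : ℝ) / 200 := by
    unfold dZ
    rw [hh]
  rw [hd]
  have hl1 : 1 ≤ l := by omega
  have hl1r : (1 : ℝ) ≤ (l : ℝ) := by exact_mod_cast hl1
  generalize (SS m (s - h) : ℝ) = W at hW hWb hWpos ⊢
  have hx1 : 1 ≤ (l : ℝ) ^ ((5 : ℝ) / m) := Real.one_le_rpow hl1r (by positivity)
  have hC0 : (0 : ℝ) ≤ (C : ℝ) := Nat.cast_nonneg _
  have hlW : (l : ℝ) / W ≤ 2 ^ 8 * (l : ℝ) ^ ((5 : ℝ) / m) := by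
    rw [div_le_iff₀ hWpos]
    exact hW
  obtain ⟨N, hN⟩ : ∃ N : ℕ, N = ⌈200 * ((C : ℝ) * (l / W)) + 200⌉₊ := ⟨_, rfl⟩
  have hN1 : 200 * ((C : ℝ) * (l / W)) + 200 ≤ (N : ℝ) := by
    rw [hN]
    exact Nat.le_ceil _
  have hN2 : (N : ℝ) < 200 * ((C : ℝ) * (l / W)) + 200 + 1 := by
    rw [hN]
    exact Nat.ceil_lt_add_one (by positivity)
  have hq : (0 : ℝ) ≤ (C : ℝ) * (l / W) := by positivity
  refine ⟨N, ?_, ?_, ?_⟩
  · have : (1 : ℝ) ≤ (N : ℝ) := by linarith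
    exact_mod_cast this
  · have h5 : (C : ℝ) * l = (C : ℝ) * (l / W) * W := by
      field_simp
    rw [h5]
    have h6 : (200 * ((C : ℝ) * (l / W)) + 200) * (W / 200) ≤ N * (W / 200) :=
      mul_le_mul_of_nonneg_right hN1 (by positivity)
    have h7 : (0 : ℝ) ≤ W / 200 := by positivity
    push_cast
    nlinarith
  · have h5 : ((N : ℝ) + 1) ≤ B * (l : ℝ) ^ ((5 : ℝ) / m) := by
      generalize (l : ℝ) ^ ((5 : ℝ) / m) = x at hx1 hlW ⊢
      have h6 : (C : ℝ) * (l / W) ≤ C * (2 ^ 8 * x) := mul_le_mul_of_nonneg_left hlW hC0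
      have h7 : (202 : ℝ) ≤ 202 * x := by linarith
      calc (N : ℝ) + 1 ≤ 200 * ((C : ℝ) * (l / W)) + 202 := by linarith
        _ ≤ 200 * (C * (2 ^ 8 * x)) + 202 * x := by linarith
        _ = _ := by
            rw [hB]
            ring
    have h6 := Pool.Agent.Helper2.T5b.pow_aux (m := m) (l := l) (N := N) (C := C) (M := 256) h5
    have h7 := h3 l (by omega)
    have h8 : (0 : ℝ) ≤ (((N + 1) ^ 256 * C : ℕ) : ℝ) := Nat.cast_nonneg _
    have h9 : (0 : ℝ) ≤ B ^ 256 * C * (l : ℝ) ^ (((5 * 256 : ℕ) : ℝ) / (m : ℝ)) :=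
      mul_nonneg (mul_nonneg (pow_nonneg hB0 _) hC0) (Real.rpow_nonneg (by linarith) _)
    calc (((N + 1) ^ 256 * (C * SS m (bL m (m ^ 2) l)) : ℕ) : ℝ)
        = (((N + 1) ^ 256 * C : ℕ) : ℝ) * (SS m (bL m (m ^ 2) l) : ℝ) := by
          push_cast
          ring
      _ ≤ (B ^ 256 * C * (l : ℝ) ^ (((5 * 256 : ℕ) : ℝ) / (m : ℝ))) *
          (l : ℝ) ^ ((1 : ℝ) / m) := mul_le_mul h6 h7 (Nat.cast_nonneg _) h9
      _ = B ^ 256 * C * (l : ℝ) ^ (((5 * 256 + 1 : ℕ) : ℝ) / (m : ℝ)) := by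
          rw [mul_assoc, ← Real.rpow_add (by linarith)]
          congr 2
          push_cast
          ring

end Pool.Agent.Helper53.T5b
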